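import Mathlib

open Polynomial

namespace Pool.Agent.Results.MP_f3603a_co.VertexDeletion

/-- `D` is an orientation of the simple graph `G`: every edge `uv` of `G` is directed in exactly
one of its two directions, and `D` has no further arcs. -/
def IsOrientation {V : Type*} (G : SimpleGraph V) (D : V → V → Prop) : Prop :=
  (∀ u v, G.Adj u v ↔ (D u v ∨ D v u)) ∧ ∀ u v, D u v → ¬ D v u

/-- The number of `D`-descents of the permutation `σ : V ≃ {0, …, n - 1}`, `n = |V|`: the number
of arcs `u → v` of `D` with `σ u > σ v`. -/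
noncomputable def des {V : Type*} [Fintype V] (D : V → V → Prop)
    (σ : V ≃ Fin (Fintype.card V)) : ℕ :=
  Nat.card {p : V × V // D p.1 p.2 ∧ σ p.2 < σ p.1}

open Classical in
/-- The Eulerian polynomial `A_D(t) = ∑ σ, t ^ des_D(σ)`, the sum over all `n!` permutations. -/
noncomputable def eulerPoly {V : Type*} [Fintype V] (D : V → V → Prop) : Polynomial ℤ :=
  ∑ σ : V ≃ Fin (Fintype.card V), X ^ des D σ

open Classical in
/-- auxiliary signed weight of a permutation -/
noncomputable def wt {V : Type*} [Fintype V] {n : ℕ} (D : V → V → Prop) (σ : V ≃ Fin n) : ℤ :=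
  ∏ a : V, ∏ b : V, if D a b ∧ σ b < σ a then (-1 : ℤ) else 1

open Classical in
noncomputable def F {V : Type*} [Fintype V] (D : V → V → Prop) (n : ℕ) : ℤ :=
  ∑ σ : V ≃ Fin n, wt D σ

section
variable {V : Type*} [Fintype V]

open Classical in
theorem eval_eq (D : V → V → Prop) : (eulerPoly D).eval (-1) = F D (Fintype.card V) := by
  unfold eulerPoly F
  rw [Polynomial.eval_finsetSum]
  refine Finset.sum_congr rfl fun σ _ => ?_
  rw [Polynomial.eval_pow, Polynomial.eval_X]
  unfold des wt
  rw [← Fintype.prod_prod_type', Finset.prod_ite]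
  simp only [Finset.prod_const, one_pow, mul_one]
  congr 1
  rw [Nat.card_eq_fintype_card, Fintype.card_subtype]

open Classical in
theorem wt_rot (G : SimpleGraph V) (hG : ∀ v, Even (Nat.card (G.neighborSet v)))
    (D : V → V → Prop) (hD : IsOrientation G D) {m : ℕ} (σ : V ≃ Fin (m + 1)) :
    wt D (σ.trans (finRotate (m + 1))) = wt D σ := by
  have hne : ∀ a b, D a b → a ≠ b := fun a b h hab => by
    subst hab; exact hD.2 _ _ h h
  set x := σ.symm (Fin.last m) with hx
  have hsx : σ x = Fin.last m := by simp [hx]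
  have hlt : ∀ a, a ≠ x → σ a ≠ Fin.last m := by
    intro a ha h
    exact ha (by rw [hx, ← h]; simp)
  have key : ∀ a b, (if D a b ∧ (σ.trans (finRotate (m + 1))) b <
      (σ.trans (finRotate (m + 1))) a then (-1 : ℤ) else 1) =
      (if D a b ∧ σ b < σ a then (-1 : ℤ) else 1) *
      ((if D a b ∧ a = x then (-1 : ℤ) else 1) * (if D a b ∧ b = x then (-1 : ℤ) else 1)) := by
    intro a b
    by_cases hab : D a b
    · have hne' := hne a b hab
      by_cases hax : a = x
      · have hbx : b ≠ x := fun h => hne' (by rw [hax, h])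
        have h1 : σ b < σ a := by
          rw [hax, hsx]; exact lt_of_le_of_ne (Fin.le_last _) (hlt b hbx)
        have h2 : ¬ (σ.trans (finRotate (m + 1))) b < (σ.trans (finRotate (m + 1))) a := by
          simp only [Equiv.trans_apply]
          rw [hax, hsx, finRotate_last]
          exact Fin.not_lt_zero _
        rw [if_neg (fun h => h2 h.2), if_pos ⟨hab, h1⟩, if_pos ⟨hab, hax⟩,
          if_neg (fun h => hbx h.2)]
        norm_num
      · by_cases hbx : b = x
        · have h1 : ¬ σ b < σ a := by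
            rw [hbx, hsx]; exact not_lt.mpr (Fin.le_last _)
          have h2 : (σ.trans (finRotate (m + 1))) b < (σ.trans (finRotate (m + 1))) a := by
            simp only [Equiv.trans_apply]
            rw [hbx, hsx, finRotate_last]
            rw [Fin.lt_def, coe_finRotate_of_ne_last (hlt a hax)]
            simp
          rw [if_pos ⟨hab, h2⟩, if_neg (fun h => h1 h.2), if_neg (fun h => hax h.2),
            if_pos ⟨hab, hbx⟩]
          norm_num
        · have h3 : ((σ.trans (finRotate (m + 1))) b < (σ.trans (finRotate (m + 1))) a) ↔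
              σ b < σ a := by
            simp only [Equiv.trans_apply]
            rw [Fin.lt_def, coe_finRotate_of_ne_last (hlt a hax),
              coe_finRotate_of_ne_last (hlt b hbx), Fin.lt_def]
            omega
          rw [if_neg (fun h : D a b ∧ a = x => hax h.2), if_neg (fun h : D a b ∧ b = x => hbx h.2)]
          simp only [h3, mul_one]
    · simp [hab]
  unfold wt
  simp only [key]
  simp only [Finset.prod_mul_distrib]
  have e1 : (∏ a : V, ∏ b : V, if D a b ∧ a = x then (-1 : ℤ) else 1) =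
      ∏ b : V, if D x b then (-1 : ℤ) else 1 := by
    rw [Fintype.prod_eq_single x]
    · simp
    · intro a ha
      simp [ha]
  have e2 : (∏ a : V, ∏ b : V, if D a b ∧ b = x then (-1 : ℤ) else 1) =
      ∏ b : V, if D b x then (-1 : ℤ) else 1 := by
    refine Finset.prod_congr rfl fun a _ => ?_
    rw [Fintype.prod_eq_single x]
    · simp
    · intro b hb
      simp [hb]
  rw [e1, e2, ← Finset.prod_mul_distrib]
  have e3 : (∏ b : V, ((if D x b then (-1 : ℤ) else 1) * if D b x then (-1 : ℤ) else 1)) =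
      ∏ b : V, if G.Adj x b then (-1 : ℤ) else 1 := by
    refine Finset.prod_congr rfl fun b _ => ?_
    rw [hD.1 x b]
    by_cases h1 : D x b
    · have h2 := hD.2 _ _ h1
      simp [h1, h2]
    · by_cases h2 : D b x <;> simp [h1, h2]
  rw [e3, Finset.prod_ite]
  simp only [Finset.prod_const, one_pow, mul_one]
  have e4 : (Finset.univ.filter fun b => G.Adj x b).card = Nat.card (G.neighborSet x) := by
    rw [Nat.card_eq_fintype_card, ← Set.toFinset_card]
    congr 1
    ext b
    simp
  rw [e4, (hG x).neg_one_pow, mul_one]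

open Classical in
theorem F_eq_last (G : SimpleGraph V) (hG : ∀ v, Even (Nat.card (G.neighborSet v)))
    (D : V → V → Prop) (hD : IsOrientation G D) (m : ℕ) (v : V) :
    F D (m + 1) = (m + 1 : ℕ) * ∑ σ : V ≃ Fin (m + 1),
      if σ v = Fin.last m then wt D σ else 0 := by
  have step : ∀ i : Fin (m + 1), (∑ σ : V ≃ Fin (m + 1), if σ v = i then wt D σ else 0) =
      ∑ σ : V ≃ Fin (m + 1), if σ v = i + 1 then wt D σ else 0 := by
    intro i
    refine Fintype.sum_equiv
      ((Equiv.equivCongr (Equiv.refl V) (finRotate (m + 1)))) _ _ ?_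
    intro σ
    have h1 : (Equiv.equivCongr (Equiv.refl V) (finRotate (m + 1))) σ =
        σ.trans (finRotate (m + 1)) := by
      ext a; simp
    rw [h1, wt_rot G hG D hD σ]
    simp only [Equiv.trans_apply, finRotate_apply, add_left_inj]
  have all : ∀ i : Fin (m + 1), (∑ σ : V ≃ Fin (m + 1), if σ v = i then wt D σ else 0) =
      ∑ σ : V ≃ Fin (m + 1), if σ v = 0 then wt D σ else 0 := by
    intro i
    induction i using Fin.induction with
    | zero => rfl
    | succ i ih =>
      rw [← ih, step i.castSucc, Fin.coeSucc_eq_succ]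
  have e : F D (m + 1) = ∑ i : Fin (m + 1), ∑ σ : V ≃ Fin (m + 1),
      if σ v = i then wt D σ else 0 := by
    unfold F
    rw [Finset.sum_comm]
    refine Finset.sum_congr rfl fun σ _ => ?_
    simp
  rw [e, Finset.sum_congr rfl (fun i _ => all i), all (Fin.last m)]
  simp

open Classical in
/-- the permutation of `V` extending `τ` with `v` in the last place -/
noncomputable def ext1 {m : ℕ} (v : V) (τ : ({w // w ≠ v} : Type _) ≃ Fin m) :
    V ≃ Fin (m + 1) :=
  ((Equiv.optionSubtype v).symm τ.symm).1.symm.trans finSuccEquivLast.symm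

open Classical in
theorem ext1_self {m : ℕ} (v : V) (τ : ({w // w ≠ v} : Type _) ≃ Fin m) :
    ext1 v τ v = Fin.last m := by
  unfold ext1
  have h : ((Equiv.optionSubtype v).symm τ.symm).1.symm v = none := by
    rw [Equiv.symm_apply_eq]
    exact (((Equiv.optionSubtype v).symm τ.symm).2).symm
  simp only [Equiv.trans_apply]
  rw [h]
  simp

open Classical in
theorem ext1_ne {m : ℕ} (v : V) (τ : ({w // w ≠ v} : Type _) ≃ Fin m) (w : {w // w ≠ v}) :
    ext1 v τ w.1 = (τ w).castSucc := by
  unfold ext1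
  have := Equiv.optionSubtype_symm_apply_symm_apply v τ.symm w
  simp only [Equiv.trans_apply]
  rw [this]
  simp

open Classical in
theorem ext1_bij {m : ℕ} (v : V) : Function.Bijective
    (fun τ : ({w // w ≠ v} : Type _) ≃ Fin m =>
      (⟨ext1 v τ, ext1_self v τ⟩ : {σ : V ≃ Fin (m + 1) // σ v = Fin.last m})) := by
  constructor
  · intro τ τ' h
    have h' : ext1 v τ = ext1 v τ' := congrArg Subtype.val h
    ext w
    have := congrArg (fun e : V ≃ Fin (m + 1) => (e w.1).val) h'
    simpa [ext1_ne] using this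
  · rintro ⟨σ, hσ⟩
    have hx : (σ.trans finSuccEquivLast).symm none = v := by
      rw [Equiv.symm_apply_eq]; simp [hσ, finSuccEquivLast_last]
    refine ⟨(Equiv.optionSubtype v ⟨(σ.trans finSuccEquivLast).symm, hx⟩).symm, ?_⟩
    apply Subtype.ext
    unfold ext1
    simp only [Equiv.symm_symm, Equiv.symm_apply_apply]
    ext a
    simp

open Classical in
theorem wt_ext1 (D : V → V → Prop) (hirr : ∀ a, ¬ D a a) {m : ℕ} (v : V)
    (τ : ({w // w ≠ v} : Type _) ≃ Fin m) :
    wt D (ext1 v τ) = (∏ b : V, if D v b then (-1 : ℤ) else 1) *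
      wt (fun a b : {w // w ≠ v} => D a.1 b.1) τ := by
  unfold wt
  rw [Fintype.prod_eq_mul_prod_subtype_ne _ v]
  congr 1
  · refine Finset.prod_congr rfl fun b _ => ?_
    by_cases hb : b = v
    · subst hb; simp [hirr]
    · have : ext1 v τ b < ext1 v τ v := by
        rw [ext1_self, ext1_ne v τ ⟨b, hb⟩]
        exact Fin.castSucc_lt_last _
      simp [this]
  · refine Finset.prod_congr rfl fun a _ => ?_
    rw [Fintype.prod_eq_mul_prod_subtype_ne _ v]
    have h1 : ¬ ext1 v τ v < ext1 v τ a.1 := by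
      rw [ext1_self]; exact not_lt.mpr (Fin.le_last _)
    rw [if_neg (fun h => h1 h.2), one_mul]
    refine Finset.prod_congr rfl fun b _ => ?_
    rw [ext1_ne, ext1_ne]
    simp only [Fin.castSucc_lt_castSucc_iff]

open Classical in
theorem sum_last (D : V → V → Prop) (hirr : ∀ a, ¬ D a a) (m : ℕ) (v : V) :
    (∑ σ : V ≃ Fin (m + 1), if σ v = Fin.last m then wt D σ else 0) =
      (∏ b : V, if D v b then (-1 : ℤ) else 1) *
        F (fun a b : {w // w ≠ v} => D a.1 b.1) m := by
  rw [← Finset.sum_filter]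
  rw [Finset.sum_subtype (p := fun σ : V ≃ Fin (m + 1) => σ v = Fin.last m)
    (Finset.univ.filter fun σ : V ≃ Fin (m + 1) => σ v = Fin.last m) (by simp) (fun σ => wt D σ)]
  unfold F
  rw [Finset.mul_sum, ← Finset.sum_congr rfl (fun τ _ => wt_ext1 D hirr v τ)]
  rw [← Function.Bijective.sum_comp (ext1_bij (m := m) v)]
  refine Finset.sum_congr ?_ fun _ _ => rfl
  ext τ
  simp

theorem abs_prod_one {ι κ : Type*} [Fintype ι] [Fintype κ] (P : ι → κ → Prop)
    [∀ a b, Decidable (P a b)] :
    |∏ a : ι, ∏ b : κ, if P a b then (-1 : ℤ) else 1| = 1 := by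
  rw [Finset.abs_prod]
  refine Finset.prod_eq_one fun a _ => ?_
  rw [Finset.abs_prod]
  refine Finset.prod_eq_one fun b _ => ?_
  split_ifs <;> simp

open Classical in
theorem wt_orient (G : SimpleGraph V) (D D' : V → V → Prop) (hD : IsOrientation G D)
    (hD' : IsOrientation G D') {m : ℕ} (σ : V ≃ Fin m) :
    wt D' σ = (∏ a : V, ∏ b : V, if D a b ∧ ¬ D' a b then (-1 : ℤ) else 1) * wt D σ := by
  have h1 : wt D' σ = (∏ a : V, ∏ b : V, if (D a b ∧ D' a b) ∧ σ b < σ a then (-1 : ℤ) else 1) *
      ∏ a : V, ∏ b : V, if (D a b ∧ ¬ D' a b) ∧ σ a < σ b then (-1 : ℤ) else 1 := by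
    rw [Finset.prod_comm (f := fun a b => if (D a b ∧ ¬ D' a b) ∧ σ a < σ b then (-1 : ℤ) else 1)]
    unfold wt
    rw [← Finset.prod_mul_distrib]
    refine Finset.prod_congr rfl fun a _ => ?_
    rw [← Finset.prod_mul_distrib]
    refine Finset.prod_congr rfl fun b _ => ?_
    have hab := hD.1 a b
    have hab' := hD'.1 a b
    have i1 := hD.2 a b
    have i2 := hD'.2 a b
    have i3 := hD.2 b a
    have i4 := hD'.2 b a
    by_cases c1 : D a b <;> by_cases c2 : D' a b <;> by_cases c3 : D b a <;>
      by_cases c4 : D' b a <;> simp_all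
  have h2 : wt D σ = (∏ a : V, ∏ b : V, if (D a b ∧ D' a b) ∧ σ b < σ a then (-1 : ℤ) else 1) *
      ∏ a : V, ∏ b : V, if (D a b ∧ ¬ D' a b) ∧ σ b < σ a then (-1 : ℤ) else 1 := by
    unfold wt
    rw [← Finset.prod_mul_distrib]
    refine Finset.prod_congr rfl fun a _ => ?_
    rw [← Finset.prod_mul_distrib]
    refine Finset.prod_congr rfl fun b _ => ?_
    by_cases c1 : D a b <;> by_cases c2 : D' a b <;> by_cases c3 : σ b < σ a <;> simp_all
  have h3 : (∏ a : V, ∏ b : V, if (D a b ∧ ¬ D' a b) ∧ σ a < σ b then (-1 : ℤ) else 1) =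
      (∏ a : V, ∏ b : V, if D a b ∧ ¬ D' a b then (-1 : ℤ) else 1) *
      ∏ a : V, ∏ b : V, if (D a b ∧ ¬ D' a b) ∧ σ b < σ a then (-1 : ℤ) else 1 := by
    rw [← Finset.prod_mul_distrib]
    refine Finset.prod_congr rfl fun a _ => ?_
    rw [← Finset.prod_mul_distrib]
    refine Finset.prod_congr rfl fun b _ => ?_
    by_cases c1 : D a b ∧ ¬ D' a b
    · have hne : a ≠ b := fun h => by subst h; exact hD.2 _ _ c1.1 c1.1
      have hne' : σ a ≠ σ b := fun h => hne (σ.injective h)
      rcases lt_or_gt_of_ne hne' with h | h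
      · have h' := not_lt.mpr h.le
        simp [c1, h, h']
      · have h' := not_lt.mpr h.le
        have h'' : σ b < σ a := h
        simp [c1, h', h'']
    · simp [c1]
  rw [h1, h2, h3]
  ring

open Classical in
theorem F_orient (G : SimpleGraph V) (D D' : V → V → Prop) (hD : IsOrientation G D)
    (hD' : IsOrientation G D') (m : ℕ) : |F D' m| = |F D m| := by
  unfold F
  rw [Finset.sum_congr rfl (fun σ _ => wt_orient G D D' hD hD' σ), ← Finset.mul_sum, abs_mul]
  rw [abs_prod_one (ι := V) (κ := V) (fun a b => D a b ∧ ¬ D' a b), one_mul]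

end

open Classical in
/-- **Vertex-deletion identity.** Let `G` be an Eulerian graph (all degrees even, not necessarily
connected) on a nonempty finite vertex set. Then `ν(G) = ∑ v, ν(G - v)`, where
`ν(H) = |A_D(-1)|` for any orientation `D` of `H`; the orientations `D` of `G` and `D' v` of
`G - v` are arbitrary. -/
theorem result {V : Type*} [Fintype V] [Nonempty V] (G : SimpleGraph V)
    (hG : ∀ v, Even (Nat.card (G.neighborSet v)))
    (D : V → V → Prop) (hD : IsOrientation G D)
    (D' : ∀ v : V, {w // w ≠ v} → {w // w ≠ v} → Prop)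
    (hD' : ∀ v, IsOrientation (G.comap (Subtype.val : {w // w ≠ v} → V)) (D' v)) :
    |(eulerPoly D).eval (-1)| = ∑ v, |(eulerPoly (D' v)).eval (-1)| := by
  obtain ⟨m, hm⟩ : ∃ m, Fintype.card V = m + 1 :=
    ⟨Fintype.card V - 1, by have := Fintype.card_pos (α := V); omega⟩
  have hirr : ∀ a, ¬ D a a := fun a h => hD.2 _ _ h h
  have h1 : ∀ v, (m + 1 : ℤ) * |(eulerPoly (D' v)).eval (-1)| = |(eulerPoly D).eval (-1)| := by
    intro v
    have hc : Fintype.card {w // w ≠ v} = m := by
      rw [Fintype.card_subtype_compl, Fintype.card_subtype_eq, hm]; rfl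
    rw [eval_eq, eval_eq, hm]
    have hc' : F (D' v) (Fintype.card {w // w ≠ v}) = F (D' v) m := by rw [hc]
    rw [hc', F_eq_last G hG D hD m v, sum_last D hirr m v, abs_mul, abs_mul, Finset.abs_prod]
    rw [Finset.prod_eq_one (fun b _ => by split_ifs <;> simp), one_mul]
    have h3 : |F (D' v) m| = |F (fun a b : {w // w ≠ v} => D a.1 b.1) m| := by
      refine F_orient (G.comap (Subtype.val : {w // w ≠ v} → V)) _ _ ?_ (hD' v) m
      exact ⟨fun a b => hD.1 a.1 b.1, fun a b => hD.2 a.1 b.1⟩
    rw [h3, abs_of_nonneg (by positivity : (0 : ℤ) ≤ ((m + 1 : ℕ) : ℤ))]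
    push_cast
    ring
  have h4 : (m + 1 : ℤ) * |(eulerPoly D).eval (-1)| =
      (m + 1 : ℤ) * ∑ v, |(eulerPoly (D' v)).eval (-1)| := by
    rw [Finset.mul_sum, Finset.sum_congr rfl (fun v _ => h1 v)]
    simp [hm]
  exact mul_left_cancel₀ (by positivity) h4

end Pool.Agent.Results.MP_f3603a_co.VertexDeletion
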